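import Mathlib
import Pool.Agent.Y666.SP.Stm

/-!
Project SP (helper666): S_UP, S_ZORN, S_STEP, S_IN (helper555).
-/

set_option autoImplicit false

namespace Pool.Agent.Y555.SP.Abs

open Pool.Agent.Y666.SP

section

variable {Φ : Type} [PartialOrder Φ] {ll : Φ → Φ → Prop}

theorem irr (hS : Sys ll) (a : Φ) : ¬ ll a a := fun h => lt_irrefl a (hS.lt a a h)

theorem trans (hS : Sys ll) {a b c : Φ} (h1 : ll a b) (h2 : ll b c) : ll a c :=
  hS.lle a b c h1 (hS.lt b c h2).le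

end

theorem t_UP : S_UP := by
  intro Φ _ ll hS L U hnt g hg
  constructor
  · by_contra hemp
    set M : Set Φ := {g' | g' ∈ Reg ll L U ∧ g ≤ g'} with hM
    have hsub : M ⊆ {g' | g ≤ g' ∧ ¬ ll g g'} := by
      rintro g' ⟨h1, h2⟩
      refine ⟨h2, fun h3 => hemp ⟨g', ?_, h1.2⟩⟩
      intro l hl
      rcases Set.mem_insert_iff.mp hl with rfl | hl
      · exact h3
      · exact h1.1 l hl
    have hfin : M.Finite := (hS.fin g).subset hsub
    obtain ⟨g', hg', hmax⟩ := hfin.exists_maximal ⟨g, hg, le_rfl⟩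
    refine hnt ⟨{g'}, Set.singleton_nonempty _, ?_, ?_, ?_⟩
    · intro a ha
      rw [Set.mem_singleton_iff.mp ha]
      exact hg'.1
    · intro a ha b hb
      left
      rw [Set.mem_singleton_iff.mp ha, Set.mem_singleton_iff.mp hb]
    · intro a ha g'' h1 h2 _
      rw [Set.mem_singleton_iff.mp ha] at h2
      have h3 : g'' ∈ M := ⟨h1, hg'.2.trans h2.le⟩
      exact absurd (hmax h3 h2.le) (not_le_of_gt h2)
  · rintro ⟨A, hAne, hA1, hA2, hA3⟩
    have hsub : Reg ll (insert g L) U ⊆ Reg ll L U := fun z hz =>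
      ⟨fun l hl => hz.1 l (Set.mem_insert_of_mem _ hl), hz.2⟩
    refine hnt ⟨A, hAne, hA1.trans hsub, hA2, ?_⟩
    intro a ha g' hg' h1 h2
    refine hA3 a ha g' ⟨?_, hg'.2⟩ h1 h2
    intro l hl
    rcases Set.mem_insert_iff.mp hl with rfl | hl
    · exact hS.lle _ a g' ((hA1 ha).1 _ (Set.mem_insert _ _)) h1.le
    · exact hg'.1 l hl

theorem t_ZORN : S_ZORN := by
  intro Φ _ ll hS L U hT
  obtain ⟨A, hA, hmax⟩ := zorn_subset {A : Set Φ | Good ll (Reg ll L U) A} (by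
    intro c hc hchain
    refine ⟨⋃₀ c, ⟨?_, ?_, ?_⟩, fun s hs => Set.subset_sUnion_of_mem hs⟩
    · exact Set.sUnion_subset fun s hs => (hc hs).1
    · rintro a ⟨A1, hA1, ha⟩ b ⟨A2, hA2, hb⟩
      rcases hchain.total hA1 hA2 with h | h
      · exact (hc hA2).2.1 a (h ha) b hb
      · exact (hc hA1).2.1 a ha b (h hb)
    · rintro g ⟨A1, hA1, hg⟩ g' hg' h1 h2
      exact (hc hA1).2.2 g hg g' hg' h1 fun h hh => h2 h ⟨A1, hA1, hh⟩)
  have hA' : Good ll (Reg ll L U) A := hA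
  refine ⟨A, hA', fun x hx hcon => ?_⟩
  set L' : Set Φ := L ∪ {g | g ∈ A ∧ ll g x} with hL'
  set U' : Set Φ := U ∪ {g | g ∈ A ∧ ll x g} with hU'
  have hxR : x ∈ Reg ll L' U' := by
    refine ⟨?_, ?_⟩
    · rintro l (hl | hl)
      · exact hx.1 l hl
      · exact hl.2
    · rintro u (hu | hu)
      · exact hx.2 u hu
      · exact hu.2
  have hsub : Reg ll L' U' ⊆ Reg ll L U := fun z hz =>
    ⟨fun l hl => hz.1 l (Or.inl hl), fun u hu => hz.2 u (Or.inl hu)⟩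
  obtain ⟨B, ⟨b0, hb0⟩, hB1, hB2, hB3⟩ := hT L' U' Set.subset_union_left Set.subset_union_left
    ⟨x, hxR⟩
  have hAB : ∀ a ∈ A, ∀ b ∈ B, ll a b ∨ ll b a := by
    intro a ha b hb
    rcases hcon a ha with h | h
    · exact Or.inl ((hB1 hb).1 a (Or.inr ⟨ha, h⟩))
    · exact Or.inr ((hB1 hb).2 a (Or.inr ⟨ha, h⟩))
  have hgood : Good ll (Reg ll L U) (A ∪ B) := by
    refine ⟨Set.union_subset hA'.1 (hB1.trans hsub), ?_, ?_⟩
    · rintro a (ha | ha) b (hb | hb)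
      · exact hA'.2.1 a ha b hb
      · exact Or.inr (hAB a ha b hb)
      · exact Or.inr (hAB b hb a ha).symm
      · exact hB2 a ha b hb
    · rintro g (hg | hg) g' hg' h1 h2
      · exact hA'.2.2 g hg g' hg' h1 fun h hh => h2 h (Or.inl hh)
      · refine hB3 g hg g' ⟨?_, ?_⟩ h1 fun h hh => h2 h (Or.inr hh)
        · rintro l (hl | hl)
          · exact hg'.1 l hl
          · exact hS.lle l g g' ((hB1 hg).1 l (Or.inr hl)) h1.le
        · rintro u (hu | hu)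
          · exact hg'.2 u hu
          · exact h2 u (Or.inl hu.1) ((hB1 hg).2 u (Or.inr hu))
  have hb0A : b0 ∈ A := hmax hgood Set.subset_union_left (Or.inr hb0)
  rcases hcon b0 hb0A with h | h
  · exact irr hS b0 ((hB1 hb0).1 b0 (Or.inr ⟨hb0A, h⟩))
  · exact irr hS b0 ((hB1 hb0).2 b0 (Or.inr ⟨hb0A, h⟩))

section

variable {Φ : Type} [PartialOrder Φ] {ll : Φ → Φ → Prop}

/-- adding an element below a good family -/
theorem good_insert (hS : Sys ll) {x y y' : Φ} {A : Set Φ} (hA : Good ll (Reg ll {x} {y}) A)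
    (h1 : ll y' y) (h2 : ∀ a ∈ A, ll y' a)
    (h3 : ∀ g', ll g' y → y' < g' → (∀ h ∈ A, ll g' h) → False) :
    Good ll (Reg ll ∅ {y}) (insert y' A) := by
  refine ⟨?_, ?_, ?_⟩
  · intro a ha
    refine ⟨fun l hl => absurd hl (Set.notMem_empty l), ?_⟩
    intro u hu
    rw [Set.mem_singleton_iff.mp hu]
    rcases Set.mem_insert_iff.mp ha with rfl | ha
    · exact h1
    · exact (hA.1 ha).2 y rfl
  · intro a ha b hb
    rcases Set.mem_insert_iff.mp ha with ea | ea <;> rcases Set.mem_insert_iff.mp hb with eb | eb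
    · exact Or.inl (ea.trans eb.symm)
    · exact Or.inr (Or.inl (ea ▸ h2 b eb))
    · exact Or.inr (Or.inr (eb ▸ h2 a ea))
    · exact hA.2.1 a ea b eb
  · intro g hg g' hg' hlt hcond
    have hg'y : ll g' y := hg'.2 y rfl
    rcases Set.mem_insert_iff.mp hg with rfl | hg
    · exact absurd (fun h hh => hcond h (Set.mem_insert_of_mem _ hh) (h2 h hh))
        (fun hc => h3 g' hg'y hlt hc)
    · refine hA.2.2 g hg g' ⟨?_, ?_⟩ hlt fun h hh => hcond h (Set.mem_insert_of_mem _ hh)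
      · intro l hl
        rw [Set.mem_singleton_iff.mp hl]
        exact hS.lle x g g' ((hA.1 hg).1 x rfl) hlt.le
      · intro u hu
        rw [Set.mem_singleton_iff.mp hu]
        exact hg'y

end

theorem t_STEP : S_STEP := by
  intro Φ _ ll hS x y A hxy hA hmax
  have hReg : ∀ {z : Φ}, ll x z → ll z y → z ∈ Reg ll {x} {y} := by
    intro z h1 h2
    refine ⟨fun l hl => ?_, fun u hu => ?_⟩
    · rw [Set.mem_singleton_iff.mp hl]
      exact h1
    · rw [Set.mem_singleton_iff.mp hu]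
      exact h2
  have hAx : ∀ a ∈ A, ll x a := fun a ha => (hA.1 ha).1 x rfl
  have hAy : ∀ a ∈ A, ll a y := fun a ha => (hA.1 ha).2 y rfl
  -- the case of an upper bound `c` for the new element
  have main : ∀ c : Φ, ll x c → c ≤ y → (∀ a ∈ A, c ≤ a) → (c = y ∨ c ∈ A) → (c = y → A = ∅) →
      ∃ y', x ≤ y' ∧ ¬ ll x y' ∧ ll y' y ∧ (∀ a ∈ A, ll y' a) ∧
        Good ll (Reg ll ∅ {y}) (insert y' A) := by
    intro c hxc hcy hcA hc1 hc2
    set M : Set Φ := {g | x ≤ g ∧ ¬ ll x g ∧ ll g c} with hM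
    have hfin : M.Finite := (hS.fin x).subset fun g hg => ⟨hg.1, hg.2.1⟩
    obtain ⟨y', hy', hmaxM⟩ := hfin.exists_maximal ⟨x, le_rfl, irr hS x, hxc⟩
    have h2 : ∀ a ∈ A, ll y' a := fun a ha => hS.lle y' c a hy'.2.2 (hcA a ha)
    have h1 : ll y' y := hS.lle y' c y hy'.2.2 hcy
    refine ⟨y', hy'.1, hy'.2.1, h1, h2, good_insert hS hA h1 h2 ?_⟩
    intro g' hg'y hlt hg'A
    have hg'c : ll g' c := by
      rcases hc1 with rfl | hcA'
      · exact hg'y
      · exact hg'A c hcA'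
    by_cases hxg : ll x g'
    · exact hmax g' (hReg hxg hg'y) fun a ha => Or.inr (hg'A a ha)
    · have h3 : g' ∈ M := ⟨hy'.1.trans hlt.le, hxg, hg'c⟩
      exact absurd (hmaxM h3 hlt.le) (not_le_of_gt hlt)
  rcases Set.eq_empty_or_nonempty A with hemp | hne
  · subst hemp
    exact main y hxy le_rfl (fun a ha => absurd ha (Set.notMem_empty a)) (Or.inl rfl) fun _ => rfl
  · by_cases hleast : ∃ a0 ∈ A, ∀ a ∈ A, a = a0 ∨ ll a0 a
    · obtain ⟨a0, ha0, hl⟩ := hleast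
      refine main a0 (hAx a0 ha0) (hS.lt _ _ (hAy a0 ha0)).le ?_ (Or.inr ha0) ?_
      · intro a ha
        rcases hl a ha with rfl | h
        · exact le_rfl
        · exact (hS.lt _ _ h).le
      · intro h
        subst h
        exact absurd (hAy a0 ha0) (irr hS a0)
    · have hdown : ∀ a ∈ A, ∃ b ∈ A, ll b a := by
        intro a ha
        by_contra hcon
        push Not at hcon
        refine hleast ⟨a, ha, fun b hb => ?_⟩
        rcases hA.2.1 b hb a ha with h | h | h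
        · exact Or.inl h
        · exact absurd h (hcon b hb)
        · exact Or.inr h
      obtain ⟨m, hm1, hm2, _⟩ := hS.glb A hne hA.2.1 hdown
      have hma : ∀ a ∈ A, ll m a := by
        intro a ha
        obtain ⟨b, hb, hba⟩ := hdown a ha
        exact hS.lel m b a (hm1 b hb) hba
      have hmy : ll m y := by
        obtain ⟨a, ha⟩ := hne
        exact hS.lel m a y (hm1 a ha) (hAy a ha)
      have hxm : x ≤ m := hm2 x fun a ha => (hS.lt _ _ (hAx a ha)).le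
      refine ⟨m, hxm, fun h => ?_, hmy, hma, good_insert hS hA hmy hma ?_⟩
      · exact hmax m (hReg h hmy) fun a ha => Or.inr (hma a ha)
      · intro g' _ hlt hg'A
        have := hm2 g' fun a ha => (hS.lt _ _ (hg'A a ha)).le
        exact absurd this (not_le_of_gt hlt)

theorem t_IN (h1 : S_UP) (h2 : S_ZORN) (h3 : S_STEP) : S_IN := by
  intro Φ _ ll hS L U hne hnt
  by_contra hcon
  have hstar : ∀ L' U' : Set Φ, (∃ a ∈ L', a ∈ Reg ll L U) → (∃ b ∈ U', b ∈ Reg ll L U) →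
      (Reg ll L' U').Nonempty → Tame ll (Reg ll L' U') := by
    intro L' U' g1 g2 g3
    by_contra g4
    exact hcon ⟨L', U', g1, g2, g3, g4⟩
  set Θ := Reg ll L U with hΘ
  -- the sequence `x`
  have hnext : ∀ g : {g // g ∈ Θ}, ∃ g' : {g // g ∈ Θ}, ll g.1 g'.1 := by
    rintro ⟨g, hg⟩
    obtain ⟨⟨g', hg'⟩, _⟩ := h1 Φ ll hS L U hnt g hg
    exact ⟨⟨g', fun l hl => hg'.1 l (Set.mem_insert_of_mem _ hl), hg'.2⟩,
      hg'.1 g (Set.mem_insert _ _)⟩
  choose nx hnx using hnext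
  obtain ⟨g0, hg0⟩ := hne
  set xs : ℕ → {g // g ∈ Θ} := fun n => nx^[n] ⟨g0, hg0⟩ with hxs
  set x : ℕ → Φ := fun n => (xs n).1 with hx
  have hxΘ : ∀ n, x n ∈ Θ := fun n => (xs n).2
  have hxx : ∀ n, ll (x n) (x (n + 1)) := by
    intro n
    have : xs (n + 1) = nx (xs n) := Function.iterate_succ_apply' nx n _
    rw [hx]
    show ll (xs n).1 (xs (n + 1)).1
    rw [this]
    exact hnx (xs n)
  -- the maps `p`
  have hstep : ∀ (n : ℕ) (y : Φ), ∃ (y' : Φ) (A : Set Φ), y ∈ Θ → ll (x n) y →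
      x n ≤ y' ∧ ¬ ll (x n) y' ∧ ll y' y ∧ (∀ a ∈ A, ll y' a) ∧ A ⊆ Reg ll {x n} {y} ∧
        Good ll (Reg ll ∅ {y}) (insert y' A) := by
    intro n y
    by_cases hy : y ∈ Θ ∧ ll (x n) y
    · obtain ⟨A, hA, hmx⟩ := h2 Φ ll hS {x n} {y} (fun L' U' g1 g2 g3 =>
        hstar L' U' ⟨x n, g1 rfl, hxΘ n⟩ ⟨y, g2 rfl, hy.1⟩ g3)
      obtain ⟨y', k1, k2, k3, k4, k5⟩ := h3 Φ ll hS (x n) y A hy.2 hA hmx
      exact ⟨y', A, fun _ _ => ⟨k1, k2, k3, k4, hA.1, k5⟩⟩
    · exact ⟨y, ∅, fun g1 g2 => absurd ⟨g1, g2⟩ hy⟩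
  choose p A hpA using hstep
  set N : ℕ → Set Φ := fun n => {g | g ∈ Θ ∧ x n ≤ g ∧ ¬ ll (x n) g} with hN
  have hNfin : ∀ n, (N n).Finite := fun n => (hS.fin (x n)).subset fun g hg => hg.2
  have hNll : ∀ n y, y ∈ N (n + 1) → ll (x n) y := fun n y hy =>
    hS.lle _ _ _ (hxx n) hy.2.1
  have hpN : ∀ n y, y ∈ N (n + 1) → p n y ∈ N n := by
    intro n y hy
    obtain ⟨k1, k2, k3, _, _, _⟩ := hpA n y hy.1 (hNll n y hy)
    refine ⟨⟨fun l hl => ?_, fun u hu => ?_⟩, k1, k2⟩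
    · exact hS.lle l (x n) _ ((hxΘ n).1 l hl) k1
    · exact trans hS k3 (hy.1.2 u hu)
  -- Koenig's lemma
  let G : ℕ → ℕ → Φ := fun k => Nat.rec (motive := fun _ => ℕ → Φ) (fun n => x n)
    (fun _ f n => p n (f (n + 1))) k
  have hG0 : ∀ n, G 0 n = x n := fun n => rfl
  have hGs : ∀ k n, G (k + 1) n = p n (G k (n + 1)) := fun k n => rfl
  have hGN : ∀ k n, G k n ∈ N n := by
    intro k
    induction k with
    | zero => exact fun n => ⟨hxΘ n, le_rfl, irr hS _⟩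
    | succ k ih =>
      intro n
      rw [hGs]
      exact hpN n _ (ih (n + 1))
  have hlim : ∀ n, ∃ y ∈ N n, ∀ᶠ m in (Filter.hyperfilter ℕ : Filter ℕ), G (m - n) n = y := by
    intro n
    rw [← Ultrafilter.eventually_exists_mem_iff (hNfin n)]
    exact Filter.Eventually.of_forall fun m => ⟨_, hGN (m - n) n, rfl⟩
  choose y hyN hy using hlim
  have hev : ∀ n : ℕ, ∀ᶠ m in (Filter.hyperfilter ℕ : Filter ℕ), n < m := by
    intro n
    have : ∀ᶠ m in (Filter.atTop : Filter ℕ), n < m := Filter.eventually_gt_atTop n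
    rw [← Nat.cofinite_eq_atTop] at this
    exact Filter.hyperfilter_le_cofinite this
  have hpy : ∀ n, p n (y (n + 1)) = y n := by
    intro n
    obtain ⟨m, ⟨g1, g2⟩, g3⟩ := (((hy n).and (hy (n + 1))).and (hev n)).exists
    rw [← g1, ← g2]
    have : m - n = (m - (n + 1)) + 1 := by omega
    rw [this, hGs]
  -- properties of the sequence `y`
  have hAll : ∀ n, x n ≤ y n ∧ ll (y n) (y (n + 1)) ∧ (∀ a ∈ A n (y (n + 1)), ll (y n) a) ∧
      (∀ a ∈ A n (y (n + 1)), ll a (y (n + 1))) ∧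
      Good ll (Reg ll ∅ {y (n + 1)}) (insert (y n) (A n (y (n + 1)))) := by
    intro n
    obtain ⟨k1, _, k3, k4, k5, k6⟩ := hpA n (y (n + 1)) (hyN (n + 1)).1
      (hNll n _ (hyN (n + 1)))
    rw [hpy n] at k1 k3 k4 k6
    exact ⟨k1, k3, k4, fun a ha => (k5 ha).2 _ rfl, k6⟩
  set B : ℕ → Set Φ := fun n => insert (y n) (A n (y (n + 1))) with hB
  have hBlow : ∀ n, ∀ b ∈ B n, y n ≤ b := by
    intro n b hb
    rcases Set.mem_insert_iff.mp hb with rfl | hb
    · exact le_rfl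
    · exact (hS.lt _ _ ((hAll n).2.2.1 b hb)).le
  have hBup : ∀ n, ∀ b ∈ B n, ll b (y (n + 1)) := by
    intro n b hb
    rcases Set.mem_insert_iff.mp hb with rfl | hb
    · exact (hAll n).2.1
    · exact (hAll n).2.2.2.1 b hb
  have hymono : Monotone y := monotone_nat_of_le_succ fun n => (hS.lt _ _ (hAll n).2.1).le
  have hBB : ∀ n m, n < m → ∀ b ∈ B n, ∀ b' ∈ B m, ll b b' := by
    intro n m hnm b hb b' hb'
    exact hS.lle b _ b' (hBup n b hb) ((hymono hnm).trans (hBlow m b' hb'))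
  have hyΘ : ∀ n, y n ∈ Θ := fun n => (hyN n).1
  apply hnt
  refine ⟨⋃ n, B n, ⟨y 0, Set.mem_iUnion.mpr ⟨0, Set.mem_insert _ _⟩⟩, ?_, ?_, ?_⟩
  · intro b hb
    obtain ⟨n, hb⟩ := Set.mem_iUnion.mp hb
    refine ⟨fun l hl => ?_, fun u hu => ?_⟩
    · exact hS.lle l (y n) b ((hyΘ n).1 l hl) (hBlow n b hb)
    · exact trans hS (hBup n b hb) ((hyΘ (n + 1)).2 u hu)
  · intro a ha b hb
    obtain ⟨n, ha⟩ := Set.mem_iUnion.mp ha
    obtain ⟨m, hb⟩ := Set.mem_iUnion.mp hb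
    rcases lt_trichotomy n m with h | h | h
    · exact Or.inr (Or.inl (hBB n m h a ha b hb))
    · subst h
      exact (hAll n).2.2.2.2.2.1 a ha b hb
    · exact Or.inr (Or.inr (hBB m n h b hb a ha))
  · intro g hg g' _ hlt hcond
    obtain ⟨n, hg⟩ := Set.mem_iUnion.mp hg
    have k1 : ll g' (y (n + 1)) :=
      hcond (y (n + 1)) (Set.mem_iUnion.mpr ⟨n + 1, Set.mem_insert _ _⟩) (hBup n g hg)
    refine (hAll n).2.2.2.2.2.2 g hg g' ⟨fun l hl => absurd hl (Set.notMem_empty l), ?_⟩ hlt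
      fun h hh => hcond h (Set.mem_iUnion.mpr ⟨n, hh⟩)
    intro u hu
    rw [Set.mem_singleton_iff.mp hu]
    exact k1

end Pool.Agent.Y555.SP.Abs
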